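import Pool.Agent.LE.StmtsH

/-!
# AVU: the mean of the smoothed spectral measure of `δ_x` is at most `|S| / |σ|` (Wegner)
-/

set_option autoImplicit false

open MeasureTheory ProbabilityTheory Function Filter

open scoped ENNReal BigOperators InnerProductSpace Topology

noncomputable section

namespace Pool.Agent.LE.CH.H62

open Pool.Agent.Anderson Pool.Agent.Loc Pool.Agent.Mob Pool.Agent.Helper54.Bal

variable {d : ℕ}

theorem zne {η : ℝ} (hη : 0 < η) (E : ℝ) : (zz η E).im ≠ 0 := by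
  rw [zz_im]; exact hη.ne'

/-- the integrand -/
def FF0 (η : ℝ) (u : L2 d) (V : Site d → ℝ) (E : ℝ) : ℝ≥0∞ :=
  ENNReal.ofReal (η / Real.pi * ‖G V (zz η E) u‖ ^ 2)

theorem meas_FF0 {η : ℝ} (hη : 0 < η) (u : L2 d) :
    Measurable fun p : (Site d → ℝ) × ℝ => FF0 η u p.1 p.2 := by
  unfold FF0
  have h := (sm_G (d := d) (Ω := (Site d → ℝ) × ℝ) hη.ne' measurable_fst measurable_snd
    (stronglyMeasurable_const (b := u))).norm.measurable
  exact ((h.pow_const 2).const_mul _).ennreal_ofReal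

theorem meas_wt {η : ℝ} (hη : 0 < η) (S : Set ℝ) (u : L2 d) :
    Measurable fun V : Site d → ℝ => wt V S η u :=
  (meas_FF0 hη u).lintegral_prod_right' (ν := volume.restrict S)

theorem norm_G_del (V : Site d → ℝ) {z : ℂ} (hz : z.im ≠ 0) (x : Site d) :
    ‖G V z (del x)‖ = ‖G (tau x V) z (del 0)‖ := by
  have h : shift x (G V z (del x)) = G (tau x V) z (del 0) := by
    apply G_unique hz
    intro y
    have h1 := G_eq (V := V) hz (del x) (y + x)
    have h2 : lap (shift x (G V z (del x))) y = lap (G V z (del x)) (y + x) := by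
      unfold lap
      refine Finset.sum_congr rfl fun i _ => ?_
      rw [shift_apply, shift_apply, add_right_comm y (Pi.single i 1) x, sub_add_eq_add_sub]
    have h3 : (del x : L2 d) (y + x) = del (0 : Site d) y := by
      rw [del_apply, del_apply]
      simp
    rw [h2, shift_apply, ← h3, ← h1]
    rfl
  rw [← h, LinearIsometry.norm_map]

theorem wt_del (V : Site d → ℝ) (S : Set ℝ) {η : ℝ} (hη : 0 < η) (x : Site d) :
    wt V S η (del x) = wt (tau x V) S η (del 0) := by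
  unfold wt
  refine lintegral_congr fun E => ?_
  rw [norm_G_del V (zne hη E) x]

/-! ### the law `gl σ` -/

theorem lintegral_gl_le {σ : ℝ} (hσ : σ ≠ 0) {f : ℝ → ℝ≥0∞} (hf : Measurable f) :
    ∫⁻ s, f s ∂(gl σ) ≤ ENNReal.ofReal (1 / |σ|) * ∫⁻ s, f s := by
  have h1 : gl σ = gaussianReal 0 (.mk (σ ^ 2) (sq_nonneg _)) := by
    unfold gl γ1
    rw [gaussianReal_map_const_mul, mul_zero, mul_one]
  have hv : (NNReal.mk (σ ^ 2) (sq_nonneg _)) ≠ 0 := by
    intro h
    have : σ ^ 2 = 0 := congrArg NNReal.toReal h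
    exact hσ (by simpa using this)
  rw [h1, gaussianReal_of_var_ne_zero _ hv,
    lintegral_withDensity_eq_lintegral_mul _ (measurable_gaussianPDF _ _) hf,
    ← lintegral_const_mul _ hf]
  refine lintegral_mono fun x => ?_
  change gaussianPDF 0 (.mk (σ ^ 2) (sq_nonneg _)) x * f x ≤ _
  gcongr
  unfold gaussianPDF
  apply ENNReal.ofReal_le_ofReal
  unfold gaussianPDFReal
  have e1 : Real.exp (-(x - 0) ^ 2 / (2 * ((NNReal.mk (σ ^ 2) (sq_nonneg _) : NNReal) : ℝ))) ≤
      1 := by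
    rw [Real.exp_le_one_iff]
    have : 0 ≤ (x - 0) ^ 2 / (2 * σ ^ 2) := by positivity
    change -(x - 0) ^ 2 / (2 * σ ^ 2) ≤ 0
    rw [neg_div]
    linarith
  have e2 : (√(2 * Real.pi * ((NNReal.mk (σ ^ 2) (sq_nonneg _) : NNReal) : ℝ)))⁻¹ ≤
      1 / |σ| := by
    rw [← one_div]
    apply one_div_le_one_div_of_le (by positivity)
    rw [← Real.sqrt_sq_eq_abs]
    apply Real.sqrt_le_sqrt
    change σ ^ 2 ≤ 2 * Real.pi * σ ^ 2
    have := Real.pi_gt_three
    nlinarith [sq_nonneg σ]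
  calc _ ≤ 1 / |σ| * 1 := mul_le_mul e2 e1 (Real.exp_pos _).le (by positivity)
    _ = _ := mul_one _

theorem lintegral_poisson {b : ℝ} (hb : 0 < b) (a : ℝ) :
    ∫⁻ s : ℝ, ENNReal.ofReal (1 / Real.pi * (b / ((s + a) ^ 2 + b ^ 2))) = 1 := by
  have h0 : ∀ s : ℝ, ENNReal.ofReal (1 / Real.pi * (b / ((s + a) ^ 2 + b ^ 2))) =
      (fun t : ℝ => ENNReal.ofReal (1 / Real.pi * (b / (t ^ 2 + b ^ 2)))) (s + a) := fun _ => rfl
  rw [lintegral_congr h0, lintegral_add_right_eq_self (μ := volume)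
    (fun t : ℝ => ENNReal.ofReal (1 / Real.pi * (b / (t ^ 2 + b ^ 2)))) a,
    ← ofReal_integral_eq_lintegral_ofReal, integral_const_mul, (integral_poisson hb).2]
  · rw [one_div, inv_mul_cancel₀ Real.pi_ne_zero, ENNReal.ofReal_one]
  · exact (integral_poisson hb).1.const_mul _
  · exact ae_of_all _ fun s => by positivity

/-! ### one site -/

/-- the Green function at the origin, as a function of the potential at the origin -/
theorem one_site (V : Site d → ℝ) {η : ℝ} (hη : 0 < η) (E : ℝ) :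
    ∃ a b : ℝ, 0 < b ∧ ∀ s : ℝ, FF0 η (del 0) (Function.update V 0 s) E =
      ENNReal.ofReal (1 / Real.pi * (b / ((s + a) ^ 2 + b ^ 2))) := by
  set V₀ := Function.update V 0 0 with hV₀
  have hz := zne hη E
  set z := zz η E with hzd
  set g : ℂ := G V₀ z (del 0) 0 with hg
  have hgi : 0 < g.im := by
    rw [hg, im_G_del hz, hzd, zz_im]
    have h1 : G V₀ z (del (0 : Site d)) ≠ 0 := by
      intro h
      have h2 := G_eq (V := V₀) hz (del (0 : Site d)) 0
      rw [h, ← Lap_apply, map_zero, del_apply] at h2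
      simp at h2
    have h3 : 0 < ‖G V₀ z (del (0 : Site d))‖ := norm_pos_iff.2 h1
    positivity
  have hg0 : g ≠ 0 := by
    intro h; rw [h] at hgi; simp at hgi
  have hns : 0 < Complex.normSq g := Complex.normSq_pos.2 hg0
  refine ⟨(g⁻¹).re, g.im / Complex.normSq g, by positivity, fun s => ?_⟩
  have hup : Function.update V 0 s = Function.update V₀ 0 s := by
    rw [hV₀, Function.update_idem]
  set gs : ℂ := G (Function.update V₀ 0 s) z (del 0) 0 with hgs
  have h1 : gs = (1 - (s : ℂ) * gs) * g := by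
    have h := congrArg (fun f : L2 d => f 0) (G_update_del (V := V₀) hz s)
    simp only [lp.coeFn_smul, Pi.smul_apply, smul_eq_mul] at h
    have h0 : V₀ 0 = 0 := by rw [hV₀, Function.update_self]
    rw [mf, h0, Complex.ofReal_zero, sub_zero] at h
    exact h
  have h2 : gs * ((s : ℂ) + g⁻¹) = 1 := by
    have h3 : gs * g⁻¹ = 1 - (s : ℂ) * gs := by
      nth_rewrite 1 [h1]
      rw [mul_assoc, mul_inv_cancel₀ hg0, mul_one]
    rw [mul_add, h3]; ring
  have h3 : (s : ℂ) + g⁻¹ ≠ 0 := by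
    intro h; rw [h, mul_zero] at h2; exact zero_ne_one h2
  have h4 : gs = ((s : ℂ) + g⁻¹)⁻¹ := eq_inv_of_mul_eq_one_left h2
  have h5 : gs.im = g.im / Complex.normSq g /
      ((s + (g⁻¹).re) ^ 2 + (g.im / Complex.normSq g) ^ 2) := by
    rw [h4, Complex.inv_im, Complex.add_im, Complex.ofReal_im, zero_add, Complex.inv_im,
      Complex.normSq_apply ((s : ℂ) + g⁻¹), Complex.add_re, Complex.ofReal_re, Complex.add_im,
      Complex.ofReal_im, zero_add, Complex.inv_im]
    congr 1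
    · ring
    · ring
  have h6 : gs.im = η * ‖G (Function.update V₀ 0 s) z (del (0 : Site d))‖ ^ 2 := by
    rw [hgs, im_G_del hz, hzd, zz_im]
  rw [hup, ← h5, h6]
  have h7 : 1 / Real.pi * (η * ‖G (Function.update V₀ 0 s) z (del (0 : Site d))‖ ^ 2) =
      η / Real.pi * ‖G (Function.update V₀ 0 s) z (del (0 : Site d))‖ ^ 2 := by ring
  rw [h7]
  rfl

theorem mean_FF0_le {σ η : ℝ} (hσ : σ ≠ 0) (hη : 0 < η) (E : ℝ) :
    ∫⁻ V, FF0 η (del (0 : Site d)) V E ∂(PP d (gl σ)) ≤ ENNReal.ofReal (1 / |σ|) := by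
  have hp : Measurable fun V : Site d → ℝ => ((V, E) : (Site d → ℝ) × ℝ) :=
    measurable_id.prodMk measurable_const
  have hm : Measurable fun V : Site d → ℝ => FF0 η (del (0 : Site d)) V E :=
    Measurable.comp (f := fun V : Site d → ℝ => ((V, E) : (Site d → ℝ) × ℝ))
      (g := fun p : (Site d → ℝ) × ℝ => FF0 η (del (0 : Site d)) p.1 p.2)
      (meas_FF0 hη (del (0 : Site d))) hp
  have hR : Resamp (PP d (gl σ)) (gl σ) := resamp_PP (gl σ)
  have hc : Measurable fun p : Cfg d × ℝ =>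
      FF0 η (del (0 : Site d)) (Function.update p.1 0 p.2) E :=
    Measurable.comp (f := fun p : Cfg d × ℝ => Function.update p.1 (0 : Site d) p.2)
      (g := fun V : Site d → ℝ => FF0 η (del (0 : Site d)) V E) hm measurable_upd
  have e0 : ∫⁻ V, FF0 η (del (0 : Site d)) V E ∂(PP d (gl σ)) =
      ∫⁻ p : Cfg d × ℝ, FF0 η (del (0 : Site d)) (Function.update p.1 0 p.2) E
        ∂((PP d (gl σ)).prod (gl σ)) :=
    (MeasurePreserving.lintegral_comp hR hm).symm
  rw [e0, lintegral_prod _ hc.aemeasurable]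
  have h1 : ∀ V : Site d → ℝ, ∫⁻ s, FF0 η (del (0 : Site d)) (Function.update V 0 s) E ∂(gl σ) ≤
      ENNReal.ofReal (1 / |σ|) := by
    intro V
    obtain ⟨a, b, hb, h⟩ := one_site V hη E
    rw [lintegral_congr h]
    refine (lintegral_gl_le hσ ?_).trans ?_
    · fun_prop
    · rw [lintegral_poisson hb a, mul_one]
  calc ∫⁻ V, ∫⁻ s, FF0 η (del (0 : Site d)) (Function.update V 0 s) E ∂(gl σ) ∂(PP d (gl σ))
      ≤ ∫⁻ _V, ENNReal.ofReal (1 / |σ|) ∂(PP d (gl σ)) := lintegral_mono h1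
    _ = ENNReal.ofReal (1 / |σ|) := by
      rw [lintegral_const, measure_univ, mul_one]

/-- **AVU**. -/
theorem avu : AvuStmt := by
  intro d σ η S x hσ hη hS
  have e1 : ∫⁻ V, wt V S η (del x) ∂(PP d (gl σ)) =
      ∫⁻ V, wt V S η (del (0 : Site d)) ∂(PP d (gl σ)) := by
    have h := MeasurePreserving.lintegral_comp (shiftInv_PP (d := d) (gl σ) x)
      (meas_wt hη S (del (0 : Site d)))
    rw [← h]
    exact lintegral_congr fun V => wt_del V S hη x
  rw [e1]
  have e2 : ∫⁻ V, wt V S η (del (0 : Site d)) ∂(PP d (gl σ)) =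
      ∫⁻ E in S, ∫⁻ V, FF0 η (del (0 : Site d)) V E ∂(PP d (gl σ)) :=
    lintegral_lintegral_swap (meas_FF0 hη (del (0 : Site d))).aemeasurable
  rw [e2]
  calc ∫⁻ E in S, ∫⁻ V, FF0 η (del (0 : Site d)) V E ∂(PP d (gl σ))
      ≤ ∫⁻ _E in S, ENNReal.ofReal (1 / |σ|) := lintegral_mono fun E => mean_FF0_le hσ hη E
    _ = ENNReal.ofReal (1 / |σ|) * volume S := by
      rw [setLIntegral_const]

end Pool.Agent.LE.CH.H62
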