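import Pool.Agent.Helper54_LIR.FTB

/-!
# LFL: Lipschitz bound for the low frequency part of the landscape function
-/

set_option autoImplicit false
set_option linter.unusedSectionVars false

open MeasureTheory ProbabilityTheory

open scoped ENNReal BigOperators NNReal

noncomputable section

namespace Pool.Agent.LE.IR.H62

open Matrix Pool.Agent.BED Pool.Agent.LE.IR

/-! ### Cauchy-Schwarz -/

/-- the euclidean norm -/
def nn {ι : Type} [Fintype ι] (f : ι → ℝ) : ℝ := Real.sqrt (∑ i, f i ^ 2)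

theorem nn_nonneg {ι : Type} [Fintype ι] (f : ι → ℝ) : 0 ≤ nn f := Real.sqrt_nonneg _

theorem nn_sq {ι : Type} [Fintype ι] (f : ι → ℝ) : nn f ^ 2 = ∑ i, f i ^ 2 :=
  Real.sq_sqrt (Finset.sum_nonneg fun _ _ => sq_nonneg _)

theorem csw {ι : Type} [Fintype ι] (c f g : ι → ℝ) {κ : ℝ} (hκ : 0 ≤ κ) (hc : ∀ i, |c i| ≤ κ) :
    |∑ i, c i * f i * g i| ≤ κ * (nn f * nn g) := by
  calc |∑ i, c i * f i * g i| ≤ ∑ i, |c i * f i * g i| := Finset.abs_sum_le_sum_abs _ _
    _ ≤ ∑ i, κ * (|f i| * |g i|) := by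
        refine Finset.sum_le_sum fun i _ => ?_
        rw [abs_mul, abs_mul, mul_assoc]
        exact mul_le_mul_of_nonneg_right (hc i) (by positivity)
    _ = κ * ∑ i, |f i| * |g i| := by rw [Finset.mul_sum]
    _ ≤ κ * (nn f * nn g) := by
        refine mul_le_mul_of_nonneg_left ?_ hκ
        have h := Real.sum_mul_le_sqrt_mul_sqrt Finset.univ (fun i => |f i|) (fun i => |g i|)
        simp only [sq_abs] at h
        exact h

variable {d M : ℕ} [NeZero M]

/-! ### The bilinear form -/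

/-- the gradient -/
def gr (u : Tor d M → ℝ) (p : Tor d M × Fin d) : ℝ := u (p.1 + ev p.2) - u p.1

theorem form {z h : ℝ} {V ω : Tor d M → ℝ} (hω : ∀ x, (AM z V *ᵥ ω) x = h)
    (ψ q : Tor d M → ℝ) :
    ∑ x, ψ x * (ω x * (AM z V *ᵥ fun y => ω y * q y) x) =
      ∑ p : Tor d M × Fin d, (ω p.1 * ω (p.1 + ev p.2)) * gr ψ p * gr q p +
        ∑ x, (h * ω x) * ψ x * q x := by
  have h1 : ∀ x, ω x * (AM z V *ᵥ fun y => ω y * q y) x =
      h * ω x * q x + ∑ i : Fin d, (ω x * ω (x + ev i) * (q x - q (x + ev i)) +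
        ω x * ω (x - ev i) * (q x - q (x - ev i))) := by
    intro x
    have e := hω x
    rw [AM_mulVec] at e ⊢
    have e2 : (z - V x) * ω x = h + ∑ i : Fin d, (ω (x + ev i) + ω (x - ev i)) := by linarith
    have e3 : (z - V x) * (ω x * q x) = h * q x +
        ∑ i : Fin d, (ω (x + ev i) + ω (x - ev i)) * q x := by
      rw [← Finset.sum_mul, ← add_mul, ← e2]; ring
    rw [e3, mul_sub, mul_add, Finset.mul_sum, Finset.mul_sum]
    have e4 : ∑ i : Fin d, ω x * ((ω (x + ev i) + ω (x - ev i)) * q x) -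
        ∑ i : Fin d, ω x * (ω (x + ev i) * q (x + ev i) + ω (x - ev i) * q (x - ev i)) =
        ∑ i : Fin d, (ω x * ω (x + ev i) * (q x - q (x + ev i)) +
        ω x * ω (x - ev i) * (q x - q (x - ev i))) := by
      rw [← Finset.sum_sub_distrib]
      refine Finset.sum_congr rfl fun i _ => ?_
      ring
    rw [← e4]
    ring
  simp only [h1, mul_add, Finset.mul_sum, Finset.sum_add_distrib]
  rw [Fintype.sum_prod_type]
  have h2 : ∑ x : Tor d M, ∑ i : Fin d, ψ x * (ω x * ω (x - ev i) * (q x - q (x - ev i))) =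
      ∑ x : Tor d M, ∑ i : Fin d, ψ (x + ev i) * (ω (x + ev i) * ω x * (q (x + ev i) - q x)) := by
    rw [Finset.sum_comm]
    rw [Finset.sum_comm (f := fun (x : Tor d M) (i : Fin d) =>
      ψ (x + ev i) * (ω (x + ev i) * ω x * (q (x + ev i) - q x)))]
    refine Finset.sum_congr rfl fun i _ => ?_
    rw [← Equiv.sum_comp (Equiv.addRight (ev i : Tor d M))]
    refine Finset.sum_congr rfl fun x _ => ?_
    simp only [Equiv.coe_addRight, add_sub_cancel_right]
  rw [h2]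
  have h3 : ∑ x : Tor d M, ∑ i : Fin d, ψ x * (ω x * ω (x + ev i) * (q x - q (x + ev i))) +
      ∑ x : Tor d M, ∑ i : Fin d, ψ (x + ev i) * (ω (x + ev i) * ω x * (q (x + ev i) - q x)) =
      ∑ x : Tor d M, ∑ i : Fin d, ω x * ω (x + ev i) * gr ψ (x, i) * gr q (x, i) := by
    rw [← Finset.sum_add_distrib]
    refine Finset.sum_congr rfl fun x _ => ?_
    rw [← Finset.sum_add_distrib]
    refine Finset.sum_congr rfl fun i _ => ?_
    unfold gr
    ring
  rw [h3, add_comm]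
  congr 1
  refine Finset.sum_congr rfl fun x _ => ?_
  ring

/-- the coercivity of the form -/
theorem form_self {z h ε : ℝ} {V ω : Tor d M → ℝ} (hω : ∀ x, (AM z V *ᵥ ω) x = h) (hh : 0 < h)
    (hε : ε ≤ 1 / 50) (hω1 : ∀ x, |ω x - 1| ≤ ε) (q : Tor d M → ℝ) :
    0.96 * nn (gr q) ^ 2 + 0.98 * h * nn q ^ 2 ≤
      ∑ x, q x * (ω x * (AM z V *ᵥ fun y => ω y * q y) x) := by
  rw [form hω, nn_sq, nn_sq, Finset.mul_sum, Finset.mul_sum]
  have hlo : ∀ x, 0.98 ≤ ω x := by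
    intro x
    have := (abs_le.1 (hω1 x)).1
    norm_num at hε ⊢
    linarith
  refine add_le_add (Finset.sum_le_sum fun p _ => ?_) (Finset.sum_le_sum fun x _ => ?_)
  · have h1 := hlo p.1
    have h2 := hlo (p.1 + ev p.2)
    have h3 : 0.96 ≤ ω p.1 * ω (p.1 + ev p.2) := by nlinarith
    have h4 := mul_le_mul_of_nonneg_right h3 (sq_nonneg (gr q p))
    calc 0.96 * gr q p ^ 2 ≤ ω p.1 * ω (p.1 + ev p.2) * gr q p ^ 2 := h4
      _ = _ := by ring
  · have h1 := hlo x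
    have h3 : 0.98 * h ≤ h * ω x := by nlinarith
    have h4 := mul_le_mul_of_nonneg_right h3 (sq_nonneg (q x))
    calc 0.98 * h * q x ^ 2 ≤ h * ω x * q x ^ 2 := h4
      _ = _ := by ring

/-- the energy estimates -/
theorem energy_est {E N S h : ℝ} (hE : 0 ≤ E) (hN : 0 ≤ N) (hS : 0 ≤ S) (hh : 0 < h)
    (H : 0.96 * E ^ 2 + 0.98 * h * N ^ 2 ≤ 1.05 * (N * S)) :
    h * N ≤ 1.1 * S ∧ h * E ^ 2 ≤ 1.21 * S ^ 2 := by
  have h1 : h * N ≤ 1.08 * S := by
    rcases hN.eq_or_lt with h0 | h0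
    · rw [← h0]; nlinarith
    · by_contra hcon
      push Not at hcon
      have h2 : 0.98 * h * N ^ 2 ≤ 1.05 * (N * S) := by nlinarith [sq_nonneg E]
      have h3 : N * (0.98 * (h * N)) ≤ N * (1.05 * S) := by nlinarith
      have h4 : 0.98 * (h * N) ≤ 1.05 * S := le_of_mul_le_mul_left h3 h0
      nlinarith
  refine ⟨by nlinarith, ?_⟩
  have h2 : 0.96 * E ^ 2 ≤ 1.05 * (N * S) := by nlinarith [sq_nonneg N, mul_pos hh hh]
  have h3 : 0.96 * (h * E ^ 2) ≤ 1.05 * ((h * N) * S) := by nlinarith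
  have h4 : (h * N) * S ≤ 1.08 * S * S := mul_le_mul_of_nonneg_right h1 hS
  nlinarith [sq_nonneg S]

/-! ### The kernel -/

theorem dk_sq (J : ℕ) (x : Tor d M) :
    ∑ y, dk J (x - y) ^ 2 = ((low d M J).card : ℝ) / (M : ℝ) ^ d := by
  obtain ⟨-, -, -, -, -, hpar, hinv, hsurj, -⟩ := H54.ftb d M
  have h0 : ∑ y, dk J (x - y) ^ 2 = ∑ y : Tor d M, dk J y ^ 2 :=
    Equiv.sum_comp (Equiv.subLeft x) fun y => dk J y ^ 2
  rw [h0]
  obtain ⟨f, hf⟩ := hsurj fun p => if p ∈ low d M J then 1 else 0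
  have h1 : ∀ y, f y = (dk J y : ℂ) := by
    intro y
    rw [hinv f y, H54.dk_eq]
    congr 1
    simp only [hf, mul_ite, mul_one, mul_zero]
    rw [Finset.sum_ite_mem, Finset.univ_inter]
  have h2 := hpar f
  have h3 : ∀ y, ‖f y‖ ^ 2 = dk J y ^ 2 := by
    intro y
    rw [h1, Complex.norm_real, Real.norm_eq_abs, sq_abs]
  simp only [h3] at h2
  rw [h2]
  unfold pm
  congr 1
  simp only [hf]
  have h4 : ∀ p : Tor d M, ‖(if p ∈ low d M J then (1 : ℂ) else 0)‖ ^ 2 =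
      if p ∈ low d M J then (1 : ℝ) else 0 := by
    intro p
    by_cases hp : p ∈ low d M J
    · rw [if_pos hp, if_pos hp]; simp
    · rw [if_neg hp, if_neg hp]; simp
  simp only [h4]
  rw [Finset.sum_ite_mem, Finset.univ_inter]
  simp

/-! ### The estimate -/

theorem AM_om {z μ : ℝ} {V : Tor d M → ℝ} (hA : (AM z V).PosDef) (x : Tor d M) :
    (AM z V *ᵥ om z μ V) x = 1 / μ := by
  have e : om z μ V = (1 / μ) • DD z V := by
    funext y
    simp only [om, Pi.smul_apply, smul_eq_mul]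
    ring
  rw [e, Matrix.mulVec_smul, AM_DD hA]
  simp

theorem om_near {z μ ε : ℝ} {V : Tor d M → ℝ} (hμ : 0 < μ) (hV : FlatE ε z μ V) (x : Tor d M) :
    |om z μ V x - 1| ≤ ε := by
  have h := hV.2.2 x
  have e : om z μ V x - 1 = (DD z V x - μ) / μ := by
    unfold om; field_simp
  rw [e, abs_div, abs_of_pos hμ, div_le_iff₀ hμ]
  exact h

theorem core {z h ε : ℝ} {V ω ω' W δ q : Tor d M → ℝ} (φ : Tor d M → ℝ)
    (hω : ∀ x, (AM z V *ᵥ ω) x = h) (hh : 0 < h) (hε0 : 0 < ε) (hε : ε ≤ 1 / 50)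
    (hω1 : ∀ x, |ω x - 1| ≤ ε) (hω2 : ∀ x, |ω' x - 1| ≤ ε)
    (hδ : ∀ x, δ x = ω x * q x) (hq : ∀ x, (AM z V *ᵥ δ) x = ω' x * W x) :
    h * |∑ y, φ y * (δ y - gv h W y)| ≤ 10 * ε * (nn φ * nn W) := by
  set A0 := AM (2 * d + h) (0 : Tor d M → ℝ) with hA0
  have hA0p : A0.PosDef := H54.AM0_posDef hh
  set ψ : Tor d M → ℝ := A0⁻¹ *ᵥ φ with hψ
  have hψ1 : A0 *ᵥ ψ = φ := mulVec_inv hA0p φ
  have hone : ∀ x : Tor d M, (A0 *ᵥ fun _ => (1 : ℝ)) x = h := by
    intro x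
    rw [hA0, AM_mulVec]
    simp only [Pi.zero_apply, sub_zero, mul_one, Finset.sum_const, Finset.card_univ,
      Fintype.card_fin, nsmul_eq_mul]
    ring
  have hδf : δ = fun y => ω y * q y := funext hδ
  -- the estimates for `q`
  have hφ0 := nn_nonneg φ
  have hW0 := nn_nonneg W
  have hprod : ∀ x, |ω x * ω' x - 1| ≤ 3 * ε := by
    intro x
    have h1 := hω1 x
    have h2 := hω2 x
    have e : ω x * ω' x - 1 = (ω x - 1) * (ω' x - 1) + (ω x - 1) + (ω' x - 1) := by ring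
    rw [e]
    have h3 : |(ω x - 1) * (ω' x - 1)| ≤ ε * ε := by
      rw [abs_mul]
      exact mul_le_mul h1 h2 (abs_nonneg _) hε0.le
    have h4 := abs_add_le ((ω x - 1) * (ω' x - 1) + (ω x - 1)) (ω' x - 1)
    have h5 := abs_add_le ((ω x - 1) * (ω' x - 1)) (ω x - 1)
    nlinarith
  have hq1 := form_self hω hh hε hω1 q
  have hq2 : ∑ x, q x * (ω x * (AM z V *ᵥ fun y => ω y * q y) x) ≤ 1.05 * (nn q * nn W) := by
    rw [← hδf]
    have e : ∀ x, q x * (ω x * (AM z V *ᵥ δ) x) = (ω x * ω' x) * q x * W x := by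
      intro x; rw [hq x]; ring
    rw [Finset.sum_congr rfl fun x _ => e x]
    refine (le_abs_self _).trans ?_
    refine csw _ _ _ (by norm_num) fun x => ?_
    have h1 := (abs_le.1 (hω1 x))
    have h2 := (abs_le.1 (hω2 x))
    rw [abs_mul, abs_of_pos (by linarith : 0 < ω x), abs_of_pos (by linarith : 0 < ω' x)]
    nlinarith
  obtain ⟨q1, q2⟩ := energy_est (nn_nonneg _) (nn_nonneg _) hW0 hh (hq1.trans hq2)
  -- the estimates for `ψ`
  have hp1 := form_self (ε := 0) hone hh (by norm_num) (fun _ => by simp) ψ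
  have hp2 : ∑ x, ψ x * ((1 : ℝ) * (A0 *ᵥ fun y => (1 : ℝ) * ψ y) x) ≤ 1.05 * (nn ψ * nn φ) := by
    simp only [one_mul]
    have e : ∀ x, ψ x * (A0 *ᵥ fun y => ψ y) x = (1 : ℝ) * ψ x * φ x := by
      intro x
      have : (A0 *ᵥ fun y => ψ y) = φ := hψ1
      rw [this]; ring
    rw [Finset.sum_congr rfl fun x _ => e x]
    refine (le_abs_self _).trans ?_
    refine csw _ _ _ (by norm_num) fun x => ?_
    rw [abs_one]; norm_num
  obtain ⟨p1, p2⟩ := energy_est (nn_nonneg _) (nn_nonneg _) hφ0 hh (hp1.trans hp2)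
  -- the decomposition
  have hg : A0 *ᵥ gv h W = W := by
    have e : gv h W = A0⁻¹ *ᵥ W := by
      funext x
      rfl
    rw [e]
    exact mulVec_inv hA0p W
  have hdec : ∑ y, φ y * (δ y - gv h W y) = ∑ y, (ω y - 1) * φ y * q y +
      (∑ p : Tor d M × Fin d, (1 - ω p.1 * ω (p.1 + ev p.2)) * gr ψ p * gr q p +
        h * ∑ x, (1 - ω x) * ψ x * q x) + ∑ x, (ω x * ω' x - 1) * ψ x * W x := by
    have s1 : ∑ y, φ y * (δ y - gv h W y) = ∑ y, (ω y - 1) * φ y * q y +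
        ∑ y, φ y * (q y - gv h W y) := by
      rw [← Finset.sum_add_distrib]
      refine Finset.sum_congr rfl fun y _ => ?_
      rw [hδ]; ring
    have s2 : ∑ y, φ y * (q y - gv h W y) = ∑ x, ψ x * (A0 *ᵥ q) x - ∑ x, ψ x * W x := by
      have t1 := sum_mul_mulVec_comm (A := A0) (AM_symm _ _) ψ q
      have t2 := sum_mul_mulVec_comm (A := A0) (AM_symm _ _) ψ (gv h W)
      rw [hψ1] at t1 t2
      rw [hg] at t2
      rw [t1, t2, ← Finset.sum_sub_distrib]
      refine Finset.sum_congr rfl fun y _ => ?_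
      ring
    have s3 : ∑ x, ψ x * (A0 *ᵥ q) x = ∑ p : Tor d M × Fin d, gr ψ p * gr q p +
        h * ∑ x, ψ x * q x := by
      have t := form hone ψ q
      simp only [one_mul, mul_one] at t
      rw [Finset.mul_sum]
      rw [show (A0 *ᵥ q) = (A0 *ᵥ fun y => q y) from rfl, t]
      congr 1
      refine Finset.sum_congr rfl fun y _ => ?_
      ring
    have s4 : ∑ x, (ω x * ω' x) * ψ x * W x =
        ∑ p : Tor d M × Fin d, (ω p.1 * ω (p.1 + ev p.2)) * gr ψ p * gr q p +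
        ∑ x, (h * ω x) * ψ x * q x := by
      rw [← form hω ψ q, ← hδf]
      refine Finset.sum_congr rfl fun x _ => ?_
      rw [hq x]; ring
    have s5 : ∑ p : Tor d M × Fin d, (1 - ω p.1 * ω (p.1 + ev p.2)) * gr ψ p * gr q p =
        ∑ p : Tor d M × Fin d, gr ψ p * gr q p -
        ∑ p : Tor d M × Fin d, (ω p.1 * ω (p.1 + ev p.2)) * gr ψ p * gr q p := by
      rw [← Finset.sum_sub_distrib]
      refine Finset.sum_congr rfl fun p _ => ?_
      ring
    have s6 : h * ∑ x, (1 - ω x) * ψ x * q x = h * ∑ x, ψ x * q x -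
        ∑ x, (h * ω x) * ψ x * q x := by
      rw [Finset.mul_sum, Finset.mul_sum, ← Finset.sum_sub_distrib]
      refine Finset.sum_congr rfl fun p _ => ?_
      ring
    have s7 : ∑ x, (ω x * ω' x - 1) * ψ x * W x = ∑ x, (ω x * ω' x) * ψ x * W x -
        ∑ x, ψ x * W x := by
      rw [← Finset.sum_sub_distrib]
      refine Finset.sum_congr rfl fun p _ => ?_
      ring
    rw [s1, s2, s3, s5, s6, s7, s4]
    ring
  -- the four terms
  have b1 : |∑ y, (ω y - 1) * φ y * q y| ≤ ε * (nn φ * nn q) := csw _ _ _ hε0.le hω1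
  have b2 : |∑ p : Tor d M × Fin d, (1 - ω p.1 * ω (p.1 + ev p.2)) * gr ψ p * gr q p| ≤
      (3 * ε) * (nn (gr ψ) * nn (gr q)) := by
    refine csw _ _ _ (by linarith) fun p => ?_
    have h1 := hω1 p.1
    have h2 := hω1 (p.1 + ev p.2)
    rw [abs_sub_comm]
    have e : ω p.1 * ω (p.1 + ev p.2) - 1 = (ω p.1 - 1) * (ω (p.1 + ev p.2) - 1) + (ω p.1 - 1) +
      (ω (p.1 + ev p.2) - 1) := by ring
    rw [e]
    have h3 : |(ω p.1 - 1) * (ω (p.1 + ev p.2) - 1)| ≤ ε * ε := by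
      rw [abs_mul]
      exact mul_le_mul h1 h2 (abs_nonneg _) hε0.le
    have h4 := abs_add_le ((ω p.1 - 1) * (ω (p.1 + ev p.2) - 1) + (ω p.1 - 1))
      (ω (p.1 + ev p.2) - 1)
    have h5 := abs_add_le ((ω p.1 - 1) * (ω (p.1 + ev p.2) - 1)) (ω p.1 - 1)
    nlinarith
  have b3 : |∑ x, (1 - ω x) * ψ x * q x| ≤ ε * (nn ψ * nn q) :=
    csw _ _ _ hε0.le fun x => by rw [abs_sub_comm]; exact hω1 x
  have b4 : |∑ x, (ω x * ω' x - 1) * ψ x * W x| ≤ (3 * ε) * (nn ψ * nn W) :=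
    csw _ _ _ (by linarith) hprod
  have hEE : h * (nn (gr ψ) * nn (gr q)) ≤ 1.21 * (nn φ * nn W) := by
    have t1 : (h * (nn (gr ψ) * nn (gr q))) ^ 2 ≤ (1.21 * (nn φ * nn W)) ^ 2 := by
      calc (h * (nn (gr ψ) * nn (gr q))) ^ 2 = (h * nn (gr ψ) ^ 2) * (h * nn (gr q) ^ 2) := by ring
        _ ≤ (1.21 * nn φ ^ 2) * (1.21 * nn W ^ 2) :=
          mul_le_mul p2 q2 (by positivity) (by positivity)
        _ = _ := by ring
    exact le_of_sq_le_sq t1 (by positivity)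
  have hq0 := nn_nonneg q
  have hψ0 := nn_nonneg ψ
  rw [hdec]
  have tri : |∑ y, (ω y - 1) * φ y * q y +
      (∑ p : Tor d M × Fin d, (1 - ω p.1 * ω (p.1 + ev p.2)) * gr ψ p * gr q p +
        h * ∑ x, (1 - ω x) * ψ x * q x) + ∑ x, (ω x * ω' x - 1) * ψ x * W x| ≤
      ε * (nn φ * nn q) + ((3 * ε) * (nn (gr ψ) * nn (gr q)) + h * (ε * (nn ψ * nn q))) +
        (3 * ε) * (nn ψ * nn W) := by
    refine (abs_add_le _ _).trans (add_le_add ((abs_add_le _ _).trans (add_le_add b1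
      ((abs_add_le _ _).trans (add_le_add b2 ?_)))) b4)
    rw [abs_mul, abs_of_pos hh]
    exact mul_le_mul_of_nonneg_left b3 hh.le
  have m1 := mul_le_mul_of_nonneg_left tri hh.le
  have r1 : nn φ * (h * nn q) ≤ nn φ * (1.1 * nn W) := mul_le_mul_of_nonneg_left q1 hφ0
  have r2 : (h * nn ψ) * (h * nn q) ≤ (1.1 * nn φ) * (1.1 * nn W) :=
    mul_le_mul p1 q1 (by positivity) (by positivity)
  have r3 : (h * nn ψ) * nn W ≤ (1.1 * nn φ) * nn W := mul_le_mul_of_nonneg_right p1 hW0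
  have hPW : 0 ≤ nn φ * nn W := by positivity
  calc _ ≤ h * (ε * (nn φ * nn q) + ((3 * ε) * (nn (gr ψ) * nn (gr q)) +
          h * (ε * (nn ψ * nn q))) + (3 * ε) * (nn ψ * nn W)) := m1
    _ = ε * ((nn φ * (h * nn q)) + 3 * (h * (nn (gr ψ) * nn (gr q))) +
          (h * nn ψ) * (h * nn q) + 3 * ((h * nn ψ) * nn W)) := by ring
    _ ≤ ε * (10 * (nn φ * nn W)) := by
        refine mul_le_mul_of_nonneg_left ?_ hε0.le
        nlinarith
    _ = _ := by ring

/-- **LFL**. -/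
theorem lfl : LflStmt := by
  intro d _
  refine ⟨10, by norm_num, ?_⟩
  intro M J _ z μ ε V V' x hμ hε0 hε hV hV'
  have hA := hV.2.1
  have hA' := hV'.2.1
  have hh : 0 < 1 / μ := by positivity
  set ω := om z μ V with hωd
  set ω' := om z μ V' with hωd'
  have hω : ∀ y, (AM z V *ᵥ ω) y = 1 / μ := fun y => AM_om hA y
  have hω' : ∀ y, (AM z V' *ᵥ ω') y = 1 / μ := fun y => AM_om hA' y
  have hn : ∀ y, |ω y - 1| ≤ ε := fun y => om_near hμ hV y
  have hn' : ∀ y, |ω' y - 1| ≤ ε := fun y => om_near hμ hV' y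
  have hpos : ∀ y, ω y ≠ 0 := by
    intro y
    have := (abs_le.1 (hn y)).1
    have h1 : 0 < ω y := by linarith
    exact h1.ne'
  have key := core (z := z) (h := 1 / μ) (ε := ε) (V := V) (ω := ω) (ω' := ω')
    (W := fun u => V u - V' u) (δ := fun y => ω y - ω' y) (q := fun y => (ω y - ω' y) / ω y)
    (fun y => dk J (x - y)) hω hh hε0 hε hn hn'
    (fun y => by rw [mul_div_cancel₀ _ (hpos y)]) (fun y => by
      have e : (AM z V *ᵥ fun y => ω y - ω' y) y = (AM z V *ᵥ ω) y - (AM z V *ᵥ ω') y := by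
        rw [show (fun y => ω y - ω' y) = ω - ω' from rfl, Matrix.mulVec_sub, Pi.sub_apply]
      have e2 : (AM z V *ᵥ ω') y = (AM z V' *ᵥ ω') y - (V y - V' y) * ω' y := by
        rw [AM_mulVec, AM_mulVec]; ring
      rw [e, e2, hω y, hω' y]
      ring)
  have e1 : lpf J (fun y => ω y - ω' y - gv (1 / μ) (fun u => V u - V' u) y) x =
      ∑ y, dk J (x - y) * ((ω y - ω' y) - gv (1 / μ) (fun u => V u - V' u) y) := rfl
  rw [e1]
  have e2 : nn (fun y => dk J (x - y)) = Real.sqrt ((low d M J).card / (M : ℝ) ^ d) := by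
    unfold nn
    rw [dk_sq]
  have e3 : nn (fun u => V u - V' u) = Real.sqrt (∑ u, (V u - V' u) ^ 2) := rfl
  rw [← e2, ← e3]
  have h1 : |∑ y, dk J (x - y) * ((ω y - ω' y) - gv (1 / μ) (fun u => V u - V' u) y)| =
      μ * (1 / μ * |∑ y, dk J (x - y) * ((ω y - ω' y) - gv (1 / μ) (fun u => V u - V' u) y)|) := by
    field_simp
  rw [h1]
  calc _ ≤ μ * (10 * ε * (nn (fun y => dk J (x - y)) * nn fun u => V u - V' u)) :=
        mul_le_mul_of_nonneg_left key hμ.le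
    _ = _ := by ring

end Pool.Agent.LE.IR.H62
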